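import Pool.Agent.R964.DynBLPP

/-!
# Dynamical Brownian last passage percolation: Q1 holds, with Gaussian tails

`T n b` is the last passage time from `(0, 0)` to `(n, n)` across the lines `b 0, ..., b n`
(`Pool.Agent.R964.DynBLPP.T`), and `IsEnv P B` says that `B i t x` (line `i`, time `t`,
position `x`) is the dynamical Brownian environment: a centred Gaussian field with covariance
`1{i = j} e^{-|s - t|} min (x, y)` with continuous lines.

The change of the passage time between times `0` and `t` has a Gaussian tail on the scale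
`√(n t)`, uniformly over all `n ≥ 1` and ALL `t > 0`. In particular Q1 holds.
-/

set_option autoImplicit false

open MeasureTheory ProbabilityTheory Filter Topology
open scoped ENNReal NNReal

namespace Pool.Agent.Results.MP_29ad01_pr.GaussianTail

open Pool.Agent.R964.DynBLPP

universe u

lemma poly_bound {k : ℝ} (hk : 0 < k) : ∃ C : ℝ, ∀ α : ℝ, 0 < α →
    2 * Real.exp (-α ^ 2 / Real.pi ^ 2) ≤ C * α ^ (-k) := by
  obtain ⟨m, hm⟩ := exists_nat_ge k
  have hpi1 : 1 ≤ Real.pi ^ (2 * m) := one_le_pow₀ (by linarith [Real.pi_gt_three])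
  have hfac : (1 : ℝ) ≤ (m.factorial : ℝ) := by exact_mod_cast Nat.succ_le_of_lt m.factorial_pos
  refine ⟨2 * (Real.pi ^ (2 * m) * m.factorial), fun α hα => ?_⟩
  have hak : 0 < α ^ k := Real.rpow_pos_of_pos hα k
  rw [Real.rpow_neg hα.le, ← div_eq_mul_inv, le_div_iff₀ hak]
  have h1 : Real.exp (-α ^ 2 / Real.pi ^ 2) * α ^ k ≤ Real.pi ^ (2 * m) * m.factorial := by
    rcases le_total α 1 with h | h
    · have h2 : α ^ k ≤ 1 := Real.rpow_le_one hα.le h hk.le
      have h3 : Real.exp (-α ^ 2 / Real.pi ^ 2) ≤ 1 := by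
        rw [Real.exp_le_one_iff, div_nonpos_iff]
        right
        exact ⟨by nlinarith, by positivity⟩
      calc Real.exp (-α ^ 2 / Real.pi ^ 2) * α ^ k ≤ 1 * 1 :=
            mul_le_mul h3 h2 hak.le zero_le_one
        _ ≤ Real.pi ^ (2 * m) * m.factorial := mul_le_mul hpi1 hfac zero_le_one (by positivity)
    · set y : ℝ := α ^ 2 / Real.pi ^ 2 with hy
      have hy0 : 0 ≤ y := by positivity
      have h2 : α ^ k ≤ α ^ (2 * m) := by
        rw [← Real.rpow_natCast α (2 * m)]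
        apply Real.rpow_le_rpow_of_exponent_le h
        push_cast
        linarith
      have h3 : α ^ (2 * m) = Real.pi ^ (2 * m) * y ^ m := by
        rw [hy, div_pow, ← pow_mul, ← pow_mul]
        field_simp
      have h4 : y ^ m ≤ m.factorial * Real.exp y := by
        have := Real.pow_div_factorial_le_exp y hy0 m
        rw [div_le_iff₀ (by positivity)] at this
        linarith
      have h5 : Real.exp (-α ^ 2 / Real.pi ^ 2) * Real.exp y = 1 := by
        rw [← Real.exp_add, hy, neg_div, neg_add_cancel, Real.exp_zero]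
      calc Real.exp (-α ^ 2 / Real.pi ^ 2) * α ^ k
          ≤ Real.exp (-α ^ 2 / Real.pi ^ 2) * (Real.pi ^ (2 * m) * (m.factorial * Real.exp y)) := by
            gcongr
            rw [h3] at h2
            exact h2.trans (by gcongr)
        _ = Real.pi ^ (2 * m) * m.factorial *
            (Real.exp (-α ^ 2 / Real.pi ^ 2) * Real.exp y) := by ring
        _ = Real.pi ^ (2 * m) * m.factorial := by rw [h5, mul_one]
  calc 2 * Real.exp (-α ^ 2 / Real.pi ^ 2) * α ^ k
      = 2 * (Real.exp (-α ^ 2 / Real.pi ^ 2) * α ^ k) := by ring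
    _ ≤ _ := by linarith

/-- **Q1, with Gaussian tails.** (1) For every `k > 0` there is a constant `C` such that for every
dynamical Brownian environment, all `n ≥ 1`, `t ∈ (0, n^{-1/3}]` and `α > 0`, the probability that
`|T^{n,t} - T^{n,0}| ≥ α √(n t)` is at most `C α^{-k}`. (2) For all `n ≥ 1`, all `t > 0` and all
`α > 0` that probability is at most `2 exp (-α² / π²)`. (3) For all `n ≥ 1`, `t > 0`, `a > 0` the
probability that `|T^{n,t} - T^{n,0}| ≥ a` is at most `2 exp (-a² / (2 n arccos (e^{-t})²))`. -/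
theorem result :
    (∀ k : ℝ, 0 < k → ∃ C : ℝ, ∀ (Ω : Type u) [MeasurableSpace Ω] (P : Measure Ω)
      (B : ℕ → ℝ≥0 → ℝ≥0 → Ω → ℝ), IsEnv P B → ∀ n : ℕ, 1 ≤ n → ∀ t : ℝ≥0, 0 < t →
      (t : ℝ) ≤ (n : ℝ) ^ (-(1 / 3 : ℝ)) → ∀ α : ℝ, 0 < α →
        P {ω | α * √(n * t) ≤ |T n (fun i x => B i t x ω) - T n (fun i x => B i 0 x ω)|} ≤
          ENNReal.ofReal (C * α ^ (-k))) ∧
    (∀ (Ω : Type u) [MeasurableSpace Ω] (P : Measure Ω)
      (B : ℕ → ℝ≥0 → ℝ≥0 → Ω → ℝ), IsEnv P B → ∀ n : ℕ, 1 ≤ n → ∀ t : ℝ≥0, 0 < t →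
      (∀ α : ℝ, 0 < α →
        P {ω | α * √(n * t) ≤ |T n (fun i x => B i t x ω) - T n (fun i x => B i 0 x ω)|} ≤
          ENNReal.ofReal (2 * Real.exp (-α ^ 2 / Real.pi ^ 2))) ∧
      (∀ a : ℝ, 0 < a →
        P {ω | a ≤ |T n (fun i x => B i t x ω) - T n (fun i x => B i 0 x ω)|} ≤
          ENNReal.ofReal (2 * Real.exp
            (-a ^ 2 / (2 * n * Real.arccos (Real.exp (-t)) ^ 2))))) := by
  have h3 : ∀ (Ω : Type u) [MeasurableSpace Ω] (P : Measure Ω)
      (B : ℕ → ℝ≥0 → ℝ≥0 → Ω → ℝ), IsEnv P B → ∀ n : ℕ, 1 ≤ n → ∀ t : ℝ≥0, 0 < t →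
      ∀ a : ℝ, 0 < a →
        P {ω | a ≤ |T n (fun i x => B i t x ω) - T n (fun i x => B i 0 x ω)|} ≤
          ENNReal.ofReal (2 * Real.exp
            (-a ^ 2 / (2 * n * Real.arccos (Real.exp (-t)) ^ 2))) := by
    intro Ω _ P B hB n hn t ht a ha
    have h := two_sided hB hn (s := 0) (t := t) ht.ne ha
    have e1 : |((0 : ℝ≥0) : ℝ) - t| = (t : ℝ) := by
      rw [NNReal.coe_zero, zero_sub, abs_neg, abs_of_nonneg (NNReal.coe_nonneg t)]
    rwa [e1] at h
  have h2 : ∀ (Ω : Type u) [MeasurableSpace Ω] (P : Measure Ω)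
      (B : ℕ → ℝ≥0 → ℝ≥0 → Ω → ℝ), IsEnv P B → ∀ n : ℕ, 1 ≤ n → ∀ t : ℝ≥0, 0 < t →
      ∀ α : ℝ, 0 < α →
        P {ω | α * √(n * t) ≤ |T n (fun i x => B i t x ω) - T n (fun i x => B i 0 x ω)|} ≤
          ENNReal.ofReal (2 * Real.exp (-α ^ 2 / Real.pi ^ 2)) := by
    intro Ω _ P B hB n hn t ht α hα
    have hn' : (0 : ℝ) < n := by exact_mod_cast hn
    have ht' : (0 : ℝ) < t := by exact_mod_cast ht
    have hs : 0 < √((n : ℝ) * t) := Real.sqrt_pos.2 (by positivity)
    refine (h3 Ω P B hB n hn t ht (α * √(n * t)) (by positivity)).trans ?_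
    apply ENNReal.ofReal_le_ofReal
    apply mul_le_mul_of_nonneg_left _ zero_le_two
    apply Real.exp_le_exp.2
    rw [mul_pow, Real.sq_sqrt (by positivity), neg_div, neg_div, neg_le_neg_iff]
    have hφ : 0 < Real.arccos (Real.exp (-(t : ℝ))) :=
      Real.arccos_pos.2 (by rw [Real.exp_lt_one_iff]; linarith)
    have hb := arccos_bound (NNReal.coe_nonneg t)
    rw [div_le_div_iff₀ (by positivity) (by positivity)]
    have : 2 * n * Real.arccos (Real.exp (-(t : ℝ))) ^ 2 ≤ n * t * Real.pi ^ 2 := by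
      calc 2 * n * Real.arccos (Real.exp (-(t : ℝ))) ^ 2
          ≤ 2 * n * (Real.pi ^ 2 * t / 2) := by gcongr
        _ = n * t * Real.pi ^ 2 := by ring
    calc α ^ 2 * (2 * n * Real.arccos (Real.exp (-(t : ℝ))) ^ 2)
        ≤ α ^ 2 * (n * t * Real.pi ^ 2) := by gcongr
      _ = α ^ 2 * (n * t) * Real.pi ^ 2 := by ring
  refine ⟨fun k hk => ?_, fun Ω _ P B hB n hn t ht => ⟨h2 Ω P B hB n hn t ht, h3 Ω P B hB n hn t ht⟩⟩
  obtain ⟨C, hC⟩ := poly_bound hk
  refine ⟨C, fun Ω _ P B hB n hn t ht _ α hα => (h2 Ω P B hB n hn t ht α hα).trans ?_⟩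
  exact ENNReal.ofReal_le_ofReal (hC α hα)

end Pool.Agent.Results.MP_29ad01_pr.GaussianTail
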